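import Pool.Agent.H961.T4.All3
import Pool.Graph.R_pool_sql_team_seeded_1acbe0a2.Y953.LQ.AVG
import Pool.Graph.R_pool_sql_team_seeded_1acbe0a2.Y309.LQ.NSW

/-!
# The probability that two nearest neighbours are in one cycle, second order
-/

set_option autoImplicit false

namespace Pool.Agent.H961.T5.Nbrh

open Finset Equiv Q292.LC Pool.Agent.H961.T2 Pool.Agent.H961.T3
open Pool.Agent.Y998.ST (stirExp stirLaw nnRate law_nonneg nn_nonneg)
open Pool.Agent.Y998.CN (law_sum numCycles)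
open Pool.Agent.Y953.LQ (PP PP_cont num_deriv)

theorem num_cycs {V : Type} [Fintype V] [DecidableEq V] (g : Perm V) :
    numCycles g = (cycs g).card := by
  classical
  have hab : ∀ a b : V, (Perm.SameCycle.setoid g) a b → cyc g a = cyc g b := by
    intro a b h
    have h' : g.SameCycle a b := h
    ext z
    rw [Pool.Agent.Q153.LC.mem_cyc, Pool.Agent.Q153.LC.mem_cyc]
    exact ⟨fun hz => h'.symm.trans hz, fun hz => h'.trans hz⟩
  obtain ⟨f, hf⟩ : ∃ f : Quotient (Perm.SameCycle.setoid g) → Finset V,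
      f = Quotient.lift (fun x => cyc g x) hab := ⟨_, rfl⟩
  have hmk : ∀ a, f (Quotient.mk _ a) = cyc g a := fun a => by rw [hf, Quotient.lift_mk]
  have hinj : Function.Injective f := by
    intro p q
    refine Quotient.inductionOn₂ p q fun a b h => ?_
    rw [hmk, hmk] at h
    refine Quotient.sound ?_
    have h1 : b ∈ cyc g b := Pool.Agent.Q153.LC.self_mem_cyc g b
    rw [← h, Pool.Agent.Q153.LC.mem_cyc] at h1
    exact h1
  have hr : Set.range f = ((cycs g : Finset (Finset V)) : Set (Finset V)) := by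
    ext C
    constructor
    · rintro ⟨q, rfl⟩
      refine Quotient.inductionOn q fun a => ?_
      rw [hmk]
      exact mem_image.2 ⟨a, mem_univ _, rfl⟩
    · intro hC
      obtain ⟨a, -, ha⟩ := mem_image.1 (mem_coe.1 hC)
      exact ⟨Quotient.mk _ a, by rw [hmk]; exact ha⟩
  unfold numCycles
  rw [Nat.card_congr (Equiv.ofInjective f hinj), hr]
  rw [Nat.card_coe_set_eq, Set.ncard_coe_finset]

theorem num_parts {d L : ℕ} [NeZero L] (g : Perm (Fin d → ZMod L)) :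
    numCycles g = g.partition.parts.card := by
  rw [num_cycs, ← cycs_parts, Multiset.card_map]
  rfl

theorem mean_bd {d L : ℕ} [NeZero L] {t Q r e : ℝ} (ht : 0 ≤ t)
    (h : stirExp (nnRate d L) t (fun g => |Q * ((g.partition.parts.card : ℝ) / (L : ℝ) ^ d) - r|) ≤
      e) :
    |Q * (stirExp (nnRate d L) t (fun g => (numCycles g : ℝ)) / (L : ℝ) ^ d) - r| ≤ e := by
  refine le_trans ?_ h
  have h1 : Q * (stirExp (nnRate d L) t (fun g => (numCycles g : ℝ)) / (L : ℝ) ^ d) - r =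
      ∑ g, stirLaw (nnRate d L) t g *
        (Q * ((g.partition.parts.card : ℝ) / (L : ℝ) ^ d) - r) := by
    have h2 : ∑ g, stirLaw (nnRate d L) t g *
        (Q * ((g.partition.parts.card : ℝ) / (L : ℝ) ^ d) - r) =
        Q * ((∑ g, stirLaw (nnRate d L) t g * (numCycles g : ℝ)) / (L : ℝ) ^ d) -
          r * ∑ g, stirLaw (nnRate d L) t g := by
      rw [sum_div, mul_sum, mul_sum, ← sum_sub_distrib]
      refine sum_congr rfl fun g _ => ?_
      rw [num_parts]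
      ring
    rw [h2, law_sum, mul_one]
    rfl
  rw [h1]
  unfold stirExp
  refine (abs_sum_le_sum_abs _ _).trans (le_of_eq (sum_congr rfl fun g _ => ?_))
  rw [abs_mul, abs_of_nonneg (law_nonneg nn_nonneg ht g)]

theorem int_eq {d L : ℕ} [NeZero L] (hd : 1 ≤ d) (hL : 3 ≤ L) (t u : ℝ) (x : Fin d → ZMod L)
    (i : Fin d) :
    ∫ s in t..u, (1 / 2 - PP (nnRate d L) s x (x + Pi.single i 1)) =
      (stirExp (nnRate d L) t (fun g => (numCycles g : ℝ)) / (L : ℝ) ^ d -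
        stirExp (nnRate d L) u (fun g => (numCycles g : ℝ)) / (L : ℝ) ^ d) / (2 * d) := by
  have hc := PP_cont (nnRate d L) x (x + Pi.single i 1)
  have hd0 : (0 : ℝ) < d := by exact_mod_cast hd
  have hL0 : (0 : ℝ) < (L : ℝ) ^ d := by
    have : (0 : ℝ) < L := by exact_mod_cast (by omega : 0 < L)
    positivity
  have h1 := intervalIntegral.integral_eq_sub_of_hasDerivAt (a := t) (b := u)
    (fun s _ => num_deriv Pool.Agent.Y309.LQ.t_NSW hL s x i)
    (Continuous.intervalIntegrable (by fun_prop) _ _)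
  have h2 : ∀ s : ℝ, (L : ℝ) ^ d * (d * (2 * PP (nnRate d L) s x (x + Pi.single i 1) - 1)) =
      (-(2 * d * (L : ℝ) ^ d)) * (1 / 2 - PP (nnRate d L) s x (x + Pi.single i 1)) := by
    intro s
    ring
  simp only [h2] at h1
  rw [intervalIntegral.integral_const_mul] at h1
  generalize (∫ s in t..u, (1 / 2 - PP (nnRate d L) s x (x + Pi.single i 1))) = I at h1 ⊢
  rw [eq_div_iff (by positivity), ← sub_div, eq_div_iff hL0.ne']
  linarith

theorem nbr (d : ℕ) (hd : 2 ≤ d) : ∃ m : ℕ, ∀ ε : ℝ, 0 < ε → ∃ T : ℝ, 3 ≤ T ∧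
    ∀ (L : ℕ) [NeZero L] (t u : ℝ) (x : Fin d → ZMod L) (i : Fin d), 3 ≤ L → T ≤ t → t ≤ u →
    u * (Real.log L) ^ m ≤ (L : ℝ) ^ 2 →
    |(∫ s in t..u, (1 / 2 - PP (nnRate d L) s x (x + Pi.single i 1))) -
      rc d 0 / (2 * d) * ((4 * Real.pi * t) ^ (-(d / 2 : ℝ)) -
        (4 * Real.pi * u) ^ (-(d / 2 : ℝ)))| ≤ ε * t ^ (-(d / 2 : ℝ)) := by
  obtain ⟨m, hm⟩ := Pool.Agent.H961.T4.nall Pool.Agent.H961.T4.Nmxh.nmx Pool.Agent.H961.T4.all_ubx
    d hd
  refine ⟨m, fun ε hε => ?_⟩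
  obtain ⟨T, hT, h⟩ := hm ε hε
  refine ⟨T, hT, fun L _ t u x i hL hTt htu hu => ?_⟩
  have hd2 : (2 : ℝ) ≤ d := by exact_mod_cast hd
  have ht0 : 0 < t := by linarith
  have hu0 : 0 < u := by linarith
  have hl0 : 0 ≤ (Real.log L) ^ m :=
    pow_nonneg (Real.log_nonneg (by exact_mod_cast (by omega : 1 ≤ L))) _
  have h1 := mean_bd ht0.le (h L t hL hTt ((mul_le_mul_of_nonneg_right htu hl0).trans hu))
  have h2 := mean_bd hu0.le (h L u hL (hTt.trans htu) hu)
  rw [int_eq (by omega) hL]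
  generalize stirExp (nnRate d L) t (fun g => (numCycles g : ℝ)) / (L : ℝ) ^ d = A at h1 ⊢
  generalize stirExp (nnRate d L) u (fun g => (numCycles g : ℝ)) / (L : ℝ) ^ d = B at h2 ⊢
  have hpi : (1 : ℝ) ≤ 4 * Real.pi := by linarith [Real.pi_gt_three]
  have key : ∀ {s X : ℝ}, 0 < s → t ≤ s →
      |(4 * Real.pi * s) ^ (d / 2 : ℝ) * X - rc d 0| ≤ ε →
      |X - rc d 0 * (4 * Real.pi * s) ^ (-(d / 2 : ℝ))| ≤ ε * t ^ (-(d / 2 : ℝ)) := by
    intro s X hs hts hX
    have hs4 : 0 < 4 * Real.pi * s := by positivity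
    have hq : 0 < (4 * Real.pi * s) ^ (-(d / 2 : ℝ)) := Real.rpow_pos_of_pos hs4 _
    have e1 : (4 * Real.pi * s) ^ (-(d / 2 : ℝ)) * (4 * Real.pi * s) ^ (d / 2 : ℝ) = 1 := by
      rw [← Real.rpow_add hs4, neg_add_cancel, Real.rpow_zero]
    have e2 : X - rc d 0 * (4 * Real.pi * s) ^ (-(d / 2 : ℝ)) = (4 * Real.pi * s) ^ (-(d / 2 : ℝ)) *
        ((4 * Real.pi * s) ^ (d / 2 : ℝ) * X - rc d 0) := by
      rw [mul_sub, ← mul_assoc, e1, one_mul]
      ring
    rw [e2, abs_mul, abs_of_pos hq, mul_comm]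
    refine mul_le_mul hX ?_ hq.le hε.le
    refine Real.rpow_le_rpow_of_nonpos ht0 ?_ (by linarith)
    nlinarith
  have k1 := key ht0 le_rfl h1
  have k2 := key hu0 htu h2
  have e3 : (A - B) / (2 * d) - rc d 0 / (2 * d) * ((4 * Real.pi * t) ^ (-(d / 2 : ℝ)) -
        (4 * Real.pi * u) ^ (-(d / 2 : ℝ))) =
      ((A - rc d 0 * (4 * Real.pi * t) ^ (-(d / 2 : ℝ))) -
        (B - rc d 0 * (4 * Real.pi * u) ^ (-(d / 2 : ℝ)))) / (2 * d) := by
    field_simp
    ring
  rw [e3, abs_div, abs_of_pos (by positivity : (0 : ℝ) < 2 * d), div_le_iff₀ (by positivity)]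
  refine (abs_sub _ _).trans ?_
  have hp : 0 ≤ ε * t ^ (-(d / 2 : ℝ)) := by positivity
  nlinarith

end Pool.Agent.H961.T5.Nbrh
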